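import Pool.Agent.H87.OwnC

set_option autoImplicit false

/-!
# Proper systems of continuum many congruences in the hyperbolic plane

Problem MP_f7c3cd_gt, Q1 (also proved in its frozen form S14257): every proper system of at most
continuum many congruences among at most continuum many sets is solvable in the hyperbolic plane.
We prove it in the following strong form: the parts can be taken nonempty and pairwise congruent,
and orientation preserving isometries, that is, elements of `SL(2, ℝ)`, are enough.

Idea of the proof.  Algebraically independent parameters give a free group of rank continuum of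
`SL(2, ℝ)`, generated by parabolic elements; point stabilisers are commutative.  With one generator
`t` and one generator for each set of indices in the system we look for a set `P` with `t P` equal
to the complement of `P` and such that the generator of `C` maps `P` onto the union of the parts
with index in `C`.  On an orbit this is a constraint system on a graph with at most one cycle, and
it is solvable since different sets of indices can be separated in a flexible way.
-/

namespace Pool.Agent.Results.MP_f7c3cd_gt.NonemptyCongruentParts

universe u v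

/-- Let `I` be nonempty, let `I` and `M` have at most continuum many elements, and let `L i`, `R i`
be nonempty proper subsets of `I` for all `i` in `M`. Then the hyperbolic plane is the disjoint
union of nonempty sets `A j`, `j` in `I`, which are pairwise congruent, such that for every `i` in
`M` the union of the `A j` with `j` in `L i` is congruent to the union of the `A j` with `j` in
`R i`; all these congruences are given by elements of `SL(2, ℝ)`, acting as isometries. -/
theorem result (I : Type u) (M : Type v) (L R : M → Set I) (hI : Nonempty I)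
    (hIc : Cardinal.mk I ≤ Cardinal.continuum) (hM : Cardinal.mk M ≤ Cardinal.continuum)
    (hLR : ∀ i, (L i).Nonempty ∧ L i ≠ Set.univ ∧ (R i).Nonempty ∧ R i ≠ Set.univ) :
    ∃ A : I → Set UpperHalfPlane,
      (∀ j, (A j).Nonempty) ∧
      Pairwise (fun j k => Disjoint (A j) (A k)) ∧ (⋃ j, A j) = Set.univ ∧
      (∀ j k, ∃ g : Matrix.SpecialLinearGroup (Fin 2) ℝ,
        (IsometryEquiv.constSMul g : IsometryEquiv UpperHalfPlane UpperHalfPlane) '' A j = A k) ∧
      ∀ i, ∃ g : Matrix.SpecialLinearGroup (Fin 2) ℝ,
        (IsometryEquiv.constSMul g : IsometryEquiv UpperHalfPlane UpperHalfPlane) ''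
          (⋃ j ∈ L i, A j) = ⋃ j ∈ R i, A j := by
  classical
  -- reduction to types in the lowest universe
  have hsm : ∀ (X : Type u), Cardinal.mk X ≤ Cardinal.continuum → Nonempty (X ↪ ℝ) := by
    intro X hX
    rw [← Cardinal.lift_mk_le', Cardinal.mk_real, Cardinal.lift_continuum, Cardinal.lift_id']
    exact hX
  have hsm' : ∀ (X : Type v), Cardinal.mk X ≤ Cardinal.continuum → Nonempty (X ↪ ℝ) := by
    intro X hX
    rw [← Cardinal.lift_mk_le', Cardinal.mk_real, Cardinal.lift_continuum, Cardinal.lift_id']
    exact hX
  obtain ⟨f⟩ := hsm I hIc
  obtain ⟨h⟩ := hsm' M hM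
  let I' : Type := Set.range f
  let M' : Type := Set.range h
  let e : I ≃ I' := Equiv.ofInjective f f.injective
  let s : M ≃ M' := Equiv.ofInjective h h.injective
  have hr : ∀ S : Set ℝ, Cardinal.mk S ≤ Cardinal.continuum := fun S =>
    (Cardinal.mk_set_le S).trans Cardinal.mk_real.le
  have hne : ∀ S : Set I, S ≠ Set.univ → e '' S ≠ Set.univ := by
    intro S hS he
    apply hS
    rw [← Set.preimage_image_eq S e.injective, he, Set.preimage_univ]
  obtain ⟨A, h1, h2, h3, h4⟩ := H87.OwnC.full I' M' (fun m => e '' L (s.symm m))
    (fun m => e '' R (s.symm m)) (hI.map e) (hr _) (hr _) (by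
      intro m
      obtain ⟨a1, a2, a3, a4⟩ := hLR (s.symm m)
      exact ⟨a1.image _, hne _ a2, a3.image _, hne _ a4⟩)
  have hun : ∀ S : Set I, (⋃ j ∈ S, A (e j)) = ⋃ j ∈ e '' S, A j := by
    intro S
    rw [Set.biUnion_image]
  have hcong : ∀ j k : I, ∃ g : Matrix.SpecialLinearGroup (Fin 2) ℝ,
      (IsometryEquiv.constSMul g : IsometryEquiv UpperHalfPlane UpperHalfPlane) '' A (e j)
        = A (e k) := fun j k => h3 (e j) (e k)
  have huniv : (⋃ j, A (e j)) = Set.univ := by
    rw [← h2]
    exact e.surjective.iUnion_comp A
  refine ⟨fun j => A (e j), ?_, ?_, huniv, hcong, ?_⟩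
  · intro k
    obtain ⟨z⟩ : Nonempty UpperHalfPlane := inferInstance
    have hz : z ∈ ⋃ j, A (e j) := by rw [huniv]; trivial
    obtain ⟨j, hj⟩ := Set.mem_iUnion.1 hz
    obtain ⟨g, hg⟩ := hcong j k
    change (A (e k)).Nonempty
    rw [← hg]
    exact ⟨_, z, hj, rfl⟩
  · intro j k hjk
    exact h1 (fun he => hjk (e.injective he))
  · intro i
    obtain ⟨g, hg⟩ := h4 (s i)
    refine ⟨g, ?_⟩
    rw [hun, hun]
    simp only [Equiv.symm_apply_apply] at hg
    exact hg

end Pool.Agent.Results.MP_f7c3cd_gt.NonemptyCongruentParts
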